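import Mathlib
import Pool.Agent.W139.PX.D1

/-!
# Means of products of majorants with abstract frequencies
-/

set_option autoImplicit false

namespace Pool.Agent.Zk59.NP2

open Finset Pool.Agent.Helper112
open Pool.Agent.H39R3.PB (ph pts apts ph_nonneg ph_le_one pts_mono pts_le_apts pts_add pts_mul_left)
open Pool.Agent.H39R3.PS (EM)
open Pool.Agent.W139.PW (MxOK Mx MajOK sq_sum_ee sum_moduli apts_mul_left apts_sum Mx_nonneg)
open Pool.Agent.W139.PX (sum_sq_moduli EM_mul_left EM_sum' EM_mono)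

variable {ι : Type*}

/-- the integer attached to a vector on the positions `B` -/
def NF (F : ι → ℕ) (B : Finset ι) (m : B → ℕ) : ℕ := ∑ c : B, m c * F c

/-- the vectors on the positions `B`, with the entry at `c` below `s c` -/
def dg [DecidableEq ι] (B : Finset ι) (s : ι → ℕ) : Finset (B → ℕ) := Fintype.piFinset (fun c : B => range (s c))

lemma mem_dg [DecidableEq ι] {B : Finset ι} {s : ι → ℕ} {m : B → ℕ} : m ∈ dg B s ↔ ∀ c : B, m c < s c := by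
  unfold dg
  simp [Fintype.mem_piFinset]

lemma card_dg [DecidableEq ι] (B : Finset ι) (s : ι → ℕ) : (dg B s).card = ∏ c ∈ B, s c := by
  unfold dg
  rw [Fintype.card_piFinset]
  simp only [card_range]
  exact prod_coe_sort B s

lemma dg_mono [DecidableEq ι] {B : Finset ι} {s S : ι → ℕ} (h : ∀ c ∈ B, s c ≤ S c) {m : B → ℕ}
    (hm : m ∈ dg B s) : m ∈ dg B S := by
  rw [mem_dg] at hm ⊢
  intro c
  exact (hm c).trans_le (h c c.2)

lemma prod_ph_eq [DecidableEq ι] (F : ι → ℕ) (B : Finset ι) (s : ι → ℕ) (α : ℝ) :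
    ∏ c ∈ B, ph (s c) (F c * α) = ‖∑ m ∈ dg B s, ee ((NF F B m : ℝ) * α)‖ / ∏ c ∈ B, (s c : ℝ) := by
  have h1 : ∑ m ∈ dg B s, ee ((NF F B m : ℝ) * α) =
      ∏ c : B, ∑ d ∈ range (s c), ee ((d : ℝ) * (F c * α)) := by
    rw [prod_univ_sum]
    apply sum_congr rfl
    intro m _
    have h2 : ∀ t : Finset B, ee ((∑ c ∈ t, ((m c : ℕ) : ℝ) * (F c)) * α) =
        ∏ c ∈ t, ee (((m c : ℕ) : ℝ) * (F c * α)) := by
      intro t
      classical
      induction t using Finset.induction_on with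
      | empty => simp [ls_ee_zero]
      | insert a t ha ih =>
        rw [sum_insert ha, prod_insert ha, ← ih, ← ls_ee_add]
        congr 1
        ring
    rw [← h2]
    congr 2
    unfold NF
    push_cast
    rfl
  rw [h1, norm_prod, prod_coe_sort B (fun c => ‖∑ d ∈ range (s c), ee ((d : ℝ) * (F c * α))‖),
    ← prod_div_distrib]
  rfl

/-- the data: injectivity and a bound for the vectors below `S` -/
structure Dat [DecidableEq ι] (F : ι → ℕ) (B : Finset ι) (S : ι → ℕ) (R : ℕ) : Prop where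
  inj : ∀ m ∈ dg B S, ∀ m' ∈ dg B S, NF F B m = NF F B m' → m = m'
  le : ∀ m ∈ dg B S, NF F B m ≤ R

/-- second moments -/
theorem apts_sqF [DecidableEq ι] {b : ℕ} (Q R : ℕ) (T : ℝ) (F : ι → ℕ) (B : Finset ι) (S s : ι → ℕ)
    (hD : Dat F B S R) (hs : ∀ c ∈ B, s c ≤ S c) (hs1 : ∀ c ∈ B, 1 ≤ s c) (hT0 : 0 ≤ T)
    (hT : ∀ n : ℕ, 1 ≤ n → n ≤ R → (n.divisors.card : ℝ) ≤ T) :
    apts b Q (fun α => ∏ c ∈ B, ph (s c) (F c * α) ^ 2) ≤
      2 * Q * (Q * ∏ c ∈ B, (1 / (s c : ℝ)) + T) := by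
  classical
  set P : ℝ := ∏ c ∈ B, (s c : ℝ) with hP
  have hP0 : 0 < P := by
    apply prod_pos
    intro c hc
    exact_mod_cast hs1 c hc
  have h1 : apts b Q (fun α => ∏ c ∈ B, ph (s c) (F c * α) ^ 2) =
      (∑ q ∈ (Ico Q (2 * Q)).filter (fun q => q.Coprime (2 * b)),
      ∑ a ∈ range q, ‖∑ m ∈ dg B s, ee ((NF F B m : ℝ) * ((a : ℝ) / q))‖ ^ 2) / P ^ 2 := by
    unfold apts
    rw [sum_div]
    apply sum_congr rfl
    intro q _
    rw [sum_div]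
    apply sum_congr rfl
    intro a _
    simp only
    rw [prod_pow, prod_ph_eq F B s ((a : ℝ) / q), div_pow]
  rw [h1, div_le_iff₀ (by positivity)]
  refine (sum_moduli (dg B s) (NF F B) (2 * b) R Q T hT0
    (fun m hm m' hm' h => hD.inj m (dg_mono hs hm) m' (dg_mono hs hm') h)
    (fun m hm => hD.le m (dg_mono hs hm)) hT).trans (le_of_eq ?_)
  rw [card_dg]
  push_cast
  rw [← hP]
  have h2 : ∏ c ∈ B, (1 / (s c : ℝ)) = 1 / P := by
    rw [prod_div_distrib, prod_const_one]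
  rw [h2]
  field_simp

/-- second moments, square moduli -/
theorem EM_sqF [DecidableEq ι] {b : ℕ} (P R : ℕ) (T : ℝ) (F : ι → ℕ) (B : Finset ι) (S s : ι → ℕ)
    (hD : Dat F B S R) (hs : ∀ c ∈ B, s c ≤ S c) (hs1 : ∀ c ∈ B, 1 ≤ s c) (hT0 : 0 ≤ T) (hP : 1 ≤ P)
    (hT : ∀ n : ℕ, 1 ≤ n → n ≤ R → (n.divisors.card : ℝ) ≤ T) :
    ∑ m ∈ (Ico P (2 * P)).filter (fun m => m.Coprime (2 * b)),
      EM (m ^ 2) (fun α => ∏ c ∈ B, ph (s c) (F c * α) ^ 2) ≤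
      P * ∏ c ∈ B, (1 / (s c : ℝ)) + T := by
  classical
  set D : ℝ := ∏ c ∈ B, (s c : ℝ) with hDD
  have hD0 : 0 < D := by
    apply prod_pos
    intro c hc
    exact_mod_cast hs1 c hc
  have h1 : ∑ m ∈ (Ico P (2 * P)).filter (fun m => m.Coprime (2 * b)),
      EM (m ^ 2) (fun α => ∏ c ∈ B, ph (s c) (F c * α) ^ 2) =
      (∑ q ∈ (Ico P (2 * P)).filter (fun q => q.Coprime (2 * b)),
      (∑ a ∈ range (q ^ 2), ‖∑ m ∈ dg B s, ee ((NF F B m : ℝ) * ((a : ℝ) / ((q ^ 2 : ℕ) : ℝ)))‖ ^ 2) /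
        ((q ^ 2 : ℕ) : ℝ)) / D ^ 2 := by
    rw [sum_div]
    apply sum_congr rfl
    intro q _
    unfold EM
    rw [div_right_comm]
    congr 1
    rw [sum_div]
    apply sum_congr rfl
    intro a _
    beta_reduce
    rw [prod_pow, prod_ph_eq F B s ((a : ℝ) / ((q ^ 2 : ℕ) : ℝ)), div_pow]
  rw [h1, div_le_iff₀ (by positivity)]
  refine (sum_sq_moduli (dg B s) (NF F B) (2 * b) R P T hT0 hP
    (fun m hm m' hm' h => hD.inj m (dg_mono hs hm) m' (dg_mono hs hm') h)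
    (fun m hm => hD.le m (dg_mono hs hm)) hT).trans (le_of_eq ?_)
  rw [card_dg]
  push_cast
  rw [← hDD]
  have h2 : ∏ c ∈ B, (1 / (s c : ℝ)) = 1 / D := by
    rw [prod_div_distrib, prod_const_one]
  rw [h2]
  field_simp

/-- the expansion of a product of majorants -/
lemma expand [DecidableEq ι] (F : ι → ℕ) (B : Finset ι) (I : ι → Finset ℕ) (g : ι → ℕ → ℝ) (s : ι → ℕ → ℕ) :
    (fun α : ℝ => ∏ c ∈ B, Mx (I c) (g c) (s c) (F c * α)) = fun α =>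
      ∑ p ∈ B.pi I, (∏ x ∈ B.attach, g x.1 (p x.1 x.2)) *
        ∏ c ∈ B, ph (if h : c ∈ B then s c (p c h) else 1) (F c * α) ^ 2 := by
  funext α
  unfold Mx
  rw [prod_sum]
  apply sum_congr rfl
  intro p _
  rw [prod_mul_distrib]
  congr 1
  rw [← prod_attach B (fun c => ph (if h : c ∈ B then s c (p c h) else 1) (F c * α) ^ 2)]
  apply prod_congr rfl
  intro x _
  rw [dif_pos x.2]

lemma sum_g [DecidableEq ι] (B : Finset ι) (I : ι → Finset ℕ) (g : ι → ℕ → ℝ) (s : ι → ℕ → ℕ) (S : ι → ℕ)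
    (μ : ι → ℝ) (hM : ∀ c ∈ B, MxOK (S c) (I c) (g c) (s c) (μ c)) :
    ∑ p ∈ B.pi I, ∏ x ∈ B.attach, g x.1 (p x.1 x.2) = 1 := by
  rw [← prod_sum B I g]
  apply prod_eq_one
  intro c hc
  exact (hM c hc).2.2.2.1

lemma sum_gs [DecidableEq ι] (B : Finset ι) (I : ι → Finset ℕ) (g : ι → ℕ → ℝ) (s : ι → ℕ → ℕ) (S : ι → ℕ)
    (μ : ι → ℝ) (hM : ∀ c ∈ B, MxOK (S c) (I c) (g c) (s c) (μ c)) :
    ∑ p ∈ B.pi I, (∏ x ∈ B.attach, g x.1 (p x.1 x.2)) *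
      ∏ c ∈ B, (1 / ((if h : c ∈ B then s c (p c h) else 1 : ℕ) : ℝ)) ≤ ∏ c ∈ B, μ c := by
  have h5 : ∑ p ∈ B.pi I, (∏ x ∈ B.attach, g x.1 (p x.1 x.2)) *
    ∏ c ∈ B, (1 / ((if h : c ∈ B then s c (p c h) else 1 : ℕ) : ℝ)) =
      ∏ c ∈ B, ∑ i ∈ I c, g c i / s c i := by
    rw [prod_sum]
    apply sum_congr rfl
    intro p _
    rw [← prod_attach B (fun c => (1 / ((if h : c ∈ B then s c (p c h) else 1 : ℕ) : ℝ))),
      ← prod_mul_distrib]
    apply prod_congr rfl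
    intro x _
    rw [dif_pos x.2]
    ring
  rw [h5]
  apply prod_le_prod
  · intro c hc
    exact sum_nonneg fun i hi => div_nonneg ((hM c hc).1 i hi) (Nat.cast_nonneg _)
  · intro c hc
    exact (hM c hc).2.2.2.2

/-- complete sums of products of majorants -/
theorem apts_MxF [DecidableEq ι] {b : ℕ} (Q R : ℕ) (T : ℝ) (F : ι → ℕ) (B : Finset ι) (S : ι → ℕ)
    (hD : Dat F B S R) (I : ι → Finset ℕ) (g : ι → ℕ → ℝ) (s : ι → ℕ → ℕ) (μ : ι → ℝ)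
    (hM : ∀ c ∈ B, MxOK (S c) (I c) (g c) (s c) (μ c)) (hT0 : 0 ≤ T)
    (hT : ∀ n : ℕ, 1 ≤ n → n ≤ R → (n.divisors.card : ℝ) ≤ T) :
    apts b Q (fun α => ∏ c ∈ B, Mx (I c) (g c) (s c) (F c * α)) ≤
      2 * Q * (Q * ∏ c ∈ B, μ c + T) := by
  classical
  rw [expand F B I g s, apts_sum]
  have hg0 : ∀ p ∈ B.pi I, 0 ≤ ∏ x ∈ B.attach, g x.1 (p x.1 x.2) := by
    intro p hp
    apply prod_nonneg
    intro x _
    exact (hM x.1 x.2).1 _ (mem_pi.1 hp x.1 x.2)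
  have h2 : ∀ p ∈ B.pi I, apts b Q (fun α => (∏ x ∈ B.attach, g x.1 (p x.1 x.2)) *
        ∏ c ∈ B, ph (if h : c ∈ B then s c (p c h) else 1) (F c * α) ^ 2) ≤
      (∏ x ∈ B.attach, g x.1 (p x.1 x.2)) *
        (2 * Q * (Q * ∏ c ∈ B, (1 / ((if h : c ∈ B then s c (p c h) else 1 : ℕ) : ℝ)) + T)) := by
    intro p hp
    rw [apts_mul_left]
    apply mul_le_mul_of_nonneg_left _ (hg0 p hp)
    apply apts_sqF Q R T F B S (fun c => if h : c ∈ B then s c (p c h) else 1) hD _ _ hT0 hT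
    · intro c hc
      rw [dif_pos hc]
      exact (hM c hc).2.2.1 _ (mem_pi.1 hp c hc)
    · intro c hc
      rw [dif_pos hc]
      exact (hM c hc).2.1 _ (mem_pi.1 hp c hc)
  refine (sum_le_sum h2).trans ?_
  have h3 := sum_g B I g s S μ hM
  have h4 := sum_gs B I g s S μ hM
  have h6 : ∀ p ∈ B.pi I, (∏ x ∈ B.attach, g x.1 (p x.1 x.2)) *
        (2 * Q * (Q * ∏ c ∈ B, (1 / ((if h : c ∈ B then s c (p c h) else 1 : ℕ) : ℝ)) + T)) =
      2 * Q * Q * ((∏ x ∈ B.attach, g x.1 (p x.1 x.2)) *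
        ∏ c ∈ B, (1 / ((if h : c ∈ B then s c (p c h) else 1 : ℕ) : ℝ))) +
      2 * Q * T * (∏ x ∈ B.attach, g x.1 (p x.1 x.2)) := by
    intro p _
    ring
  rw [sum_congr rfl h6, sum_add_distrib, ← mul_sum, ← mul_sum, h3]
  have h7 : 0 ≤ 2 * (Q : ℝ) * Q := by positivity
  have h8 := mul_le_mul_of_nonneg_left h4 h7
  calc _ ≤ 2 * (Q : ℝ) * Q * ∏ c ∈ B, μ c + 2 * Q * T * 1 := by linarith
    _ = _ := by ring

/-- complete sums of products of majorants, square moduli -/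
theorem EM_MxF [DecidableEq ι] {b : ℕ} (P R : ℕ) (T : ℝ) (F : ι → ℕ) (B : Finset ι) (S : ι → ℕ)
    (hD : Dat F B S R) (I : ι → Finset ℕ) (g : ι → ℕ → ℝ) (s : ι → ℕ → ℕ) (μ : ι → ℝ)
    (hM : ∀ c ∈ B, MxOK (S c) (I c) (g c) (s c) (μ c)) (hT0 : 0 ≤ T) (hP : 1 ≤ P)
    (hT : ∀ n : ℕ, 1 ≤ n → n ≤ R → (n.divisors.card : ℝ) ≤ T) :
    ∑ m ∈ (Ico P (2 * P)).filter (fun m => m.Coprime (2 * b)),
      EM (m ^ 2) (fun α => ∏ c ∈ B, Mx (I c) (g c) (s c) (F c * α)) ≤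
      P * ∏ c ∈ B, μ c + T := by
  classical
  rw [expand F B I g s]
  simp only [EM_sum', EM_mul_left]
  rw [sum_comm]
  simp only [← mul_sum]
  have hg0 : ∀ p ∈ B.pi I, 0 ≤ ∏ x ∈ B.attach, g x.1 (p x.1 x.2) := by
    intro p hp
    apply prod_nonneg
    intro x _
    exact (hM x.1 x.2).1 _ (mem_pi.1 hp x.1 x.2)
  have h2 : ∀ p ∈ B.pi I, (∏ x ∈ B.attach, g x.1 (p x.1 x.2)) *
      ∑ m ∈ (Ico P (2 * P)).filter (fun m => m.Coprime (2 * b)), EM (m ^ 2) (fun α =>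
        ∏ c ∈ B, ph (if h : c ∈ B then s c (p c h) else 1) (F c * α) ^ 2) ≤
      (∏ x ∈ B.attach, g x.1 (p x.1 x.2)) *
        (P * ∏ c ∈ B, (1 / ((if h : c ∈ B then s c (p c h) else 1 : ℕ) : ℝ)) + T) := by
    intro p hp
    apply mul_le_mul_of_nonneg_left _ (hg0 p hp)
    apply EM_sqF P R T F B S (fun c => if h : c ∈ B then s c (p c h) else 1) hD _ _ hT0 hP hT
    · intro c hc
      rw [dif_pos hc]
      exact (hM c hc).2.2.1 _ (mem_pi.1 hp c hc)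
    · intro c hc
      rw [dif_pos hc]
      exact (hM c hc).2.1 _ (mem_pi.1 hp c hc)
  refine (sum_le_sum h2).trans ?_
  have h3 := sum_g B I g s S μ hM
  have h4 := sum_gs B I g s S μ hM
  have h6 : ∀ p ∈ B.pi I, (∏ x ∈ B.attach, g x.1 (p x.1 x.2)) *
        (P * ∏ c ∈ B, (1 / ((if h : c ∈ B then s c (p c h) else 1 : ℕ) : ℝ)) + T) =
      P * ((∏ x ∈ B.attach, g x.1 (p x.1 x.2)) *
        ∏ c ∈ B, (1 / ((if h : c ∈ B then s c (p c h) else 1 : ℕ) : ℝ))) +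
      T * (∏ x ∈ B.attach, g x.1 (p x.1 x.2)) := by
    intro p _
    ring
  rw [sum_congr rfl h6, sum_add_distrib, ← mul_sum, ← mul_sum, h3]
  have h8 := mul_le_mul_of_nonneg_left h4 (Nat.cast_nonneg (α := ℝ) P)
  linarith

end Pool.Agent.Zk59.NP2
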