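import Mathlib
import Pool.Agent.Zk46.NP2.Defs
import Pool.Agent.Zk59.NP2.MeanA
import Pool.Agent.W139.PX.F3

/-!
# Module MEAN for near-palindromes with two prime factors
-/

set_option autoImplicit false

namespace Pool.Agent.Zk59.NP2

open Finset Pool.Agent.Helper112
open Pool.Agent.H39R3.PB (ph pts apts ph_nonneg ph_le_one pts_mono pts_le_apts pts_add pts_mul_left)
open Pool.Agent.H39R3.PS (EM)
open Pool.Agent.W139.PW (MxOK Mx MajOK Mx_nonneg)
open Pool.Agent.W139.PX (EM_mono majUnif)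
open Pool.Agent.W89.PW (fr)
open Pool.Agent.Zk46.NP2

lemma ph_one (β : ℝ) : ph 1 β = 1 := by
  unfold ph
  simp [ls_ee_zero]

/-- a majorant for every size -/
lemma maj1 (s : ℕ) : ∃ (I : Finset ℕ) (g : ℕ → ℝ) (z : ℕ → ℕ), 1 ≤ s →
    MxOK s I g z (64 * (1 + Real.log s) / s) ∧ ∀ β : ℝ, ph s β ≤ Mx I g z β := by
  rcases Nat.eq_zero_or_pos s with h0 | h0
  · exact ⟨∅, fun _ => 0, fun _ => 0, fun h => by omega⟩
  have hs0 : (0 : ℝ) < s := by exact_mod_cast h0
  have hs1 : (1 : ℝ) ≤ s := by exact_mod_cast h0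
  have hlog : 0 ≤ Real.log s := Real.log_nonneg hs1
  rcases Nat.lt_or_ge s 64 with h | h
  · refine ⟨{0}, fun _ => 1, fun _ => 1, fun _ => ⟨⟨?_, ?_, ?_, ?_, ?_⟩, ?_⟩⟩
    · intro i _; norm_num
    · intro i _; norm_num
    · intro i _; exact h0
    · simp
    · simp only [sum_singleton]
      rw [Nat.cast_one, div_one, le_div_iff₀ hs0]
      have : (s : ℝ) < 64 := by exact_mod_cast h
      nlinarith
    · intro β
      unfold Mx
      rw [sum_singleton, ph_one]
      have := ph_le_one s β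
      linarith
  · obtain ⟨I, g, z, hOK, hm⟩ := majUnif h
    refine ⟨I, g, z, fun _ => ⟨Pool.Agent.W139.PW.MxOK_mono ?_ hOK, fun β => ?_⟩⟩
    · apply div_le_div_of_nonneg_right _ hs0.le
      have hpi := Real.pi_gt_d4
      have h1 : 2 / Real.pi ≤ 1 := by
        rw [div_le_one (by linarith)]
        linarith
      nlinarith
    · have := hm β
      rwa [ph_one, mul_one] at this

/-- the frequencies -/
def FF (b L : ℕ) (x : ℕ × Bool) : ℕ := if x.2 then lo b L x.1 else fr b L x.1

/-- the sizes -/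
def SZ (b : ℕ) (t : ℕ → ℕ) (x : ℕ × Bool) : ℕ := if x.2 then t x.1 else sz b t x.1

lemma sum_lt_pow {b : ℕ} (_hb : 1 ≤ b) (a : ℕ → ℕ) (n : ℕ) (h : ∀ j, j < n → a j < b) :
    ∑ j ∈ range n, a j * b ^ j < b ^ n := by
  induction n with
  | zero => simp
  | succ n ih =>
    rw [sum_range_succ, pow_succ]
    have h1 := ih (fun j hj => h j (by omega))
    have h2 : a n + 1 ≤ b := h n (by omega)
    have h3 := Nat.mul_le_mul_right (b ^ n) h2
    have h4 : b * b ^ n = b ^ n * b := mul_comm _ _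
    rw [add_mul, one_mul] at h3
    omega

lemma base_inj {b : ℕ} (hb : 1 ≤ b) (a a' : ℕ → ℕ) (n : ℕ) (h : ∀ j, j < n → a j < b)
    (h' : ∀ j, j < n → a' j < b) (he : ∑ j ∈ range n, a j * b ^ j = ∑ j ∈ range n, a' j * b ^ j) :
    ∀ j, j < n → a j = a' j := by
  induction n with
  | zero => intro j hj; omega
  | succ n ih =>
    rw [sum_range_succ, sum_range_succ] at he
    have h1 := sum_lt_pow hb a n (fun j hj => h j (by omega))
    have h2 := sum_lt_pow hb a' n (fun j hj => h' j (by omega))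
    have hp : 0 < b ^ n := Nat.pow_pos (by omega)
    have h3 : a n = a' n := by
      have e1 : (∑ j ∈ range n, a j * b ^ j + a n * b ^ n) / b ^ n = a n := by
        rw [Nat.add_mul_div_right _ _ hp, Nat.div_eq_of_lt h1, zero_add]
      have e2 : (∑ j ∈ range n, a' j * b ^ j + a' n * b ^ n) / b ^ n = a' n := by
        rw [Nat.add_mul_div_right _ _ hp, Nat.div_eq_of_lt h2, zero_add]
      rw [← e1, he, e2]
    rw [h3] at he
    have h4 := ih (fun j hj => h j (by omega)) (fun j hj => h' j (by omega)) (by omega)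
    intro j hj
    rcases Nat.lt_or_ge j n with hj' | hj'
    · exact h4 j hj'
    · have : j = n := by omega
      subst this
      exact h3

/-- the base-`b` digits -/
def dgt (L : ℕ) (D E : ℕ → ℕ) (j : ℕ) : ℕ :=
  if j ≤ L then D (L - j) + 2 * E (L - j) else if j = L + 1 then 0 else D (j - (L + 2))

lemma sum_repr (b L : ℕ) (D E : ℕ → ℕ) (hD : D L = 0) (hE : E L = 0) :
    ∑ c ∈ range L, (D c * fr b L c + E c * lo b L c) = ∑ j ∈ range (2 * L + 3), dgt L D E j * b ^ j := by
  have e1 : 2 * L + 3 = (L + 1) + (L + 2) := by ring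
  rw [e1, sum_range_add]
  have h1 : ∑ j ∈ range (L + 1), dgt L D E j * b ^ j = ∑ c ∈ range L, (D c + 2 * E c) * b ^ (L - c) := by
    rw [← sum_range_reflect, sum_range_succ]
    have h2 : ∀ c ∈ range L, dgt L D E (L + 1 - 1 - c) * b ^ (L + 1 - 1 - c) = (D c + 2 * E c) * b ^ (L - c) := by
      intro c hc
      rw [mem_range] at hc
      unfold dgt
      rw [if_pos (by omega), show L - (L + 1 - 1 - c) = c by omega, show L + 1 - 1 - c = L - c by omega]
    rw [sum_congr rfl h2]
    have h3 : dgt L D E (L + 1 - 1 - L) = 0 := by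
      unfold dgt
      rw [if_pos (by omega), show L - (L + 1 - 1 - L) = L by omega, hD, hE]
    rw [h3, zero_mul, add_zero]
  have h2 : ∑ j ∈ range (L + 2), dgt L D E (L + 1 + j) * b ^ (L + 1 + j) =
      ∑ c ∈ range L, D c * b ^ (L + c + 2) := by
    rw [sum_range_succ', sum_range_succ]
    have h3 : ∀ c ∈ range L, dgt L D E (L + 1 + (c + 1)) * b ^ (L + 1 + (c + 1)) = D c * b ^ (L + c + 2) := by
      intro c hc
      unfold dgt
      rw [if_neg (by omega), if_neg (by omega), show L + 1 + (c + 1) - (L + 2) = c by omega,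
        show L + 1 + (c + 1) = L + c + 2 by omega]
    rw [sum_congr rfl h3]
    have h4 : dgt L D E (L + 1 + (L + 1)) = 0 := by
      unfold dgt
      rw [if_neg (by omega), if_neg (by omega), show L + 1 + (L + 1) - (L + 2) = L by omega, hD]
    have h5 : dgt L D E (L + 1 + 0) = 0 := by
      unfold dgt
      rw [if_neg (by omega), if_pos (by omega)]
    rw [h4, h5]
    ring
  rw [h1, h2, ← sum_add_distrib]
  apply sum_congr rfl
  intro c _
  unfold fr lo
  ring

lemma dgt_lt {b : ℕ} (hb : 1 ≤ b) (L : ℕ) (D E : ℕ → ℕ) (hD : ∀ c, D c + 2 * E c < b) (j : ℕ) :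
    dgt L D E j < b := by
  unfold dgt
  split_ifs
  · exact hD _
  · omega
  · have := hD (j - (L + 2))
    omega

/-- extension by zero -/
def ex0 {ι : Type*} [DecidableEq ι] (B : Finset ι) (m : B → ℕ) (x : ι) : ℕ :=
  if h : x ∈ B then m ⟨x, h⟩ else 0

lemma ex0_mem {ι : Type*} [DecidableEq ι] (B : Finset ι) (m : B → ℕ) (x : B) : ex0 B m x = m x := by
  unfold ex0
  rw [dif_pos x.2]

lemma ex0_not {ι : Type*} [DecidableEq ι] (B : Finset ι) (m : B → ℕ) (x : ι) (h : x ∉ B) : ex0 B m x = 0 := by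
  unfold ex0
  rw [dif_neg h]

lemma NF_eq (b L : ℕ) {B : Finset ℕ} (hB : B ⊆ range L) (m : (B ×ˢ (univ : Finset Bool) : Finset (ℕ × Bool)) → ℕ) :
    NF (FF b L) (B ×ˢ univ) m = ∑ c ∈ range L,
      (ex0 _ m (c, false) * fr b L c + ex0 _ m (c, true) * lo b L c) := by
  have h1 : NF (FF b L) (B ×ˢ univ) m = ∑ x ∈ B ×ˢ (univ : Finset Bool), ex0 _ m x * FF b L x := by
    rw [← sum_coe_sort (B ×ˢ (univ : Finset Bool))]
    unfold NF
    apply sum_congr rfl
    intro x _
    rw [ex0_mem]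
  rw [h1]
  have h2 : ∑ x ∈ B ×ˢ (univ : Finset Bool), ex0 _ m x * FF b L x =
      ∑ x ∈ range L ×ˢ (univ : Finset Bool), ex0 (B ×ˢ (univ : Finset Bool)) m x * FF b L x := by
    apply sum_subset
    · exact product_subset_product hB (Subset.refl _)
    · intro x _ hx
      rw [ex0_not _ _ _ hx, zero_mul]
  rw [h2, sum_product]
  apply sum_congr rfl
  intro c _
  rw [Fintype.sum_bool, add_comm]
  rfl

lemma bnd {b : ℕ} {t : ℕ → ℕ} (hb : 4 ≤ b) (ht : Ok b t) {B : Finset ℕ}
    (m : (B ×ˢ (univ : Finset Bool) : Finset (ℕ × Bool)) → ℕ) (hm : m ∈ dg (B ×ˢ univ) (SZ b t)) (c : ℕ) :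
    ex0 _ m (c, false) + 2 * ex0 _ m (c, true) < b := by
  rw [mem_dg] at hm
  by_cases hc : c ∈ B
  · have h1 : ((c, false) : ℕ × Bool) ∈ B ×ˢ (univ : Finset Bool) := by simp [hc]
    have h2 : ((c, true) : ℕ × Bool) ∈ B ×ˢ (univ : Finset Bool) := by simp [hc]
    have h3 := hm ⟨(c, false), h1⟩
    have h4 := hm ⟨(c, true), h2⟩
    unfold ex0
    rw [dif_pos h1, dif_pos h2]
    simp only [SZ, sz] at h3 h4
    obtain ⟨h5, h6⟩ := ht c
    simp only [if_true, Bool.false_eq_true, if_false] at h3 h4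
    omega
  · have h1 : ((c, false) : ℕ × Bool) ∉ B ×ˢ (univ : Finset Bool) := by simp [hc]
    have h2 : ((c, true) : ℕ × Bool) ∉ B ×ˢ (univ : Finset Bool) := by simp [hc]
    rw [ex0_not _ _ _ h1, ex0_not _ _ _ h2]
    omega

lemma dat {b : ℕ} {t : ℕ → ℕ} (hb : 4 ≤ b) (ht : Ok b t) (L : ℕ) {B : Finset ℕ} (hB : B ⊆ range L) :
    Dat (FF b L) (B ×ˢ (univ : Finset Bool)) (SZ b t) (b ^ (2 * L + 3)) := by
  have hL : ∀ (m : (B ×ˢ (univ : Finset Bool) : Finset (ℕ × Bool)) → ℕ) (e : Bool), ex0 _ m (L, e) = 0 := by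
    intro m e
    apply ex0_not
    intro h
    rw [mem_product] at h
    have := mem_range.1 (hB h.1)
    simp only at this
    omega
  constructor
  · intro m hm m' hm' h
    rw [NF_eq b L hB, NF_eq b L hB, sum_repr b L (fun c => ex0 _ m (c, false)) (fun c => ex0 _ m (c, true))
      (hL m _) (hL m _), sum_repr b L (fun c => ex0 _ m' (c, false)) (fun c => ex0 _ m' (c, true))
      (hL m' _) (hL m' _)] at h
    have h1 := base_inj (by omega) _ _ _
      (fun j _ => dgt_lt (by omega) L _ _ (fun c => bnd hb ht m hm c) j)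
      (fun j _ => dgt_lt (by omega) L _ _ (fun c => bnd hb ht m' hm' c) j) h
    have hc : ∀ c, c < L → ex0 _ m (c, false) = ex0 _ m' (c, false) ∧ ex0 _ m (c, true) = ex0 _ m' (c, true) := by
      intro c hc
      have h2 := h1 (L + c + 2) (by omega)
      have h3 := h1 (L - c) (by omega)
      unfold dgt at h2 h3
      rw [if_neg (by omega), if_neg (by omega), if_neg (by omega), if_neg (by omega),
        show L + c + 2 - (L + 2) = c by omega] at h2
      rw [if_pos (by omega), if_pos (by omega), show L - (L - c) = c by omega] at h3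
      beta_reduce at h2 h3
      exact ⟨h2, by omega⟩
    funext x
    rw [← ex0_mem _ m x, ← ex0_mem _ m' x]
    obtain ⟨⟨c, e⟩, hx⟩ := x
    have hcB : c < L := mem_range.1 (hB (mem_product.1 hx).1)
    cases e
    · exact (hc c hcB).1
    · exact (hc c hcB).2
  · intro m hm
    rw [NF_eq b L hB, sum_repr b L (fun c => ex0 _ m (c, false)) (fun c => ex0 _ m (c, true))
      (hL m _) (hL m _)]
    exact (sum_lt_pow (by omega) _ _
      (fun j _ => dgt_lt (by omega) L _ _ (fun c => bnd hb ht m hm c) j)).le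

lemma mu_le {b t s : ℕ} (hb : 4 ≤ b) (h1 : 1 ≤ t) (h4 : 4 * t ≤ b) (hs : s = b + 2 - 2 * t) :
    64 * (1 + Real.log t) / t * (64 * (1 + Real.log s) / s) ≤ CC b / (b * t) := by
  have hb0 : (0 : ℝ) < b := by exact_mod_cast (show 0 < b by omega)
  have ht0 : (0 : ℝ) < t := by exact_mod_cast (show 0 < t by omega)
  have ht1 : (1 : ℝ) ≤ t := by exact_mod_cast h1
  have hs0 : (0 : ℝ) < s := by exact_mod_cast (show 0 < s by omega)
  have hs1 : (1 : ℝ) ≤ s := by exact_mod_cast (show 1 ≤ s by omega)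
  have hsb : (s : ℝ) ≤ b := by exact_mod_cast (show s ≤ b by omega)
  have htb : (t : ℝ) ≤ b := by exact_mod_cast (show t ≤ b by omega)
  have h2s : (b : ℝ) ≤ 2 * s := by exact_mod_cast (show b ≤ 2 * s by omega)
  have hl1 := Real.log_le_log ht0 htb
  have hl2 := Real.log_le_log hs0 hsb
  have hl3 := Real.log_nonneg ht1
  have hl4 := Real.log_nonneg hs1
  unfold CC
  have e1 : 64 * (1 + Real.log t) / t * (64 * (1 + Real.log s) / s) =
      (4096 * ((1 + Real.log t) * (1 + Real.log s))) / (s * t) := by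
    field_simp
    ring
  rw [e1, div_le_div_iff₀ (by positivity) (by positivity)]
  have e2 : (1 + Real.log t) * (1 + Real.log s) ≤ (1 + Real.log b) ^ 2 := by
    rw [sq]
    apply mul_le_mul <;> linarith
  calc 4096 * ((1 + Real.log t) * (1 + Real.log s)) * (b * t)
      ≤ 4096 * (1 + Real.log b) ^ 2 * (2 * s * t) := by
        apply mul_le_mul
        · linarith
        · exact mul_le_mul_of_nonneg_right h2s ht0.le
        · positivity
        · positivity
    _ = 8192 * (1 + Real.log b) ^ 2 * (s * t) := by ring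

theorem thm : S_MEAN := by
  intro b t hb ht L T B hB hT
  have hT0 : 0 ≤ T := by
    have := hT 1 le_rfl (Nat.one_le_pow _ _ (by omega))
    refine le_trans ?_ this
    positivity
  choose I g z hmaj using maj1
  have hS1 : ∀ x, 1 ≤ SZ b t x := by
    intro x
    obtain ⟨h1, h2⟩ := ht x.1
    unfold SZ sz
    split_ifs <;> omega
  have hD := dat hb ht L hB
  set μ : ℕ × Bool → ℝ := fun x => 64 * (1 + Real.log (SZ b t x)) / (SZ b t x : ℝ) with hμ
  have hM : ∀ x ∈ B ×ˢ (univ : Finset Bool), MxOK (SZ b t x) (I (SZ b t x)) (g (SZ b t x)) (z (SZ b t x)) (μ x) :=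
    fun x _ => (hmaj _ (hS1 x)).1
  have hpt : ∀ α : ℝ, ∏ c ∈ B, fa b t L c α ≤
      ∏ x ∈ B ×ˢ (univ : Finset Bool), Mx (I (SZ b t x)) (g (SZ b t x)) (z (SZ b t x)) (FF b L x * α) := by
    intro α
    rw [prod_product]
    apply prod_le_prod
    · intro c _
      exact mul_nonneg (ph_nonneg _ _) (ph_nonneg _ _)
    · intro c _
      rw [Fintype.prod_bool, mul_comm]
      unfold fa
      apply mul_le_mul
      · exact (hmaj _ (hS1 (c, false))).2 _
      · exact (hmaj _ (hS1 (c, true))).2 _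
      · exact ph_nonneg _ _
      · exact Mx_nonneg (hmaj _ (hS1 (c, false))).1 _
  have hμ0 : ∏ x ∈ B ×ˢ (univ : Finset Bool), μ x ≤ ∏ c ∈ B, (CC b / (b * t c)) := by
    rw [prod_product]
    apply prod_le_prod
    · intro c _
      rw [Fintype.prod_bool]
      have h1 : ∀ x, 0 ≤ μ x := by
        intro x
        have h2 : (1 : ℝ) ≤ SZ b t x := by exact_mod_cast hS1 x
        have h3 := Real.log_nonneg h2
        rw [hμ]
        positivity
      exact mul_nonneg (h1 _) (h1 _)
    · intro c _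
      rw [Fintype.prod_bool]
      obtain ⟨h1, h2⟩ := ht c
      exact mu_le hb h1 h2 rfl
  constructor
  · intro Q
    refine (pts_mono hpt).trans ((pts_le_apts (fun α => prod_nonneg fun x _ => Mx_nonneg (hmaj _ (hS1 x)).1 _)).trans
      ((apts_MxF Q (b ^ (2 * L + 3)) T (FF b L) (B ×ˢ univ) (SZ b t) hD (fun x => I (SZ b t x))
        (fun x => g (SZ b t x)) (fun x => z (SZ b t x)) μ hM hT0 hT).trans ?_))
    gcongr
  · intro P hP
    refine (sum_le_sum fun m _ => EM_mono _ _ _ hpt).trans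
      ((EM_MxF P (b ^ (2 * L + 3)) T (FF b L) (B ×ˢ univ) (SZ b t) hD (fun x => I (SZ b t x))
        (fun x => g (SZ b t x)) (fun x => z (SZ b t x)) μ hM hT0 hP hT).trans ?_)
    gcongr

end Pool.Agent.Zk59.NP2
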